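import Pool.Agent.H.MP_a22eb7_al.P.Restrict

set_option autoImplicit false

namespace Pool.Agent.Results.MP_a22eb7_al.CharP

open MonoidAlgebra Pool.Agent.H.MP_a22eb7_al

universe u w

/-- Let `M` be a monoid all of whose subgroups (subsemigroups which are groups) are residually
locally virtually residually finite-`p` groups; this holds for instance if they are residually
finite. Then for every field `K` of characteristic `p` the monoid algebra `K[M]` is stably finite if
and only if it is directly finite, if and only if `M` satisfies an explicit combinatorial condition
not involving `K`. -/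
theorem result (p : ℕ) [Fact p.Prime] (M : Type u) [Monoid M]
    (hM : ∀ (G : Type u) [Group G] (f : G →ₙ* M), Function.Injective f → ResLocVirtResP p G)
    (K : Type w) [Field K] [CharP K p] :
    List.TFAE [
      (∀ a b : MonoidAlgebra K M, a * b = 1 → b * a = 1),
      (∀ (n : ℕ) (A B : Matrix (Fin n) (Fin n) (MonoidAlgebra K M)), A * B = 1 → B * A = 1),
      ((∀ e x y : M, e * e = e → e * x = x → x * e = x → e * y = y → y * e = y →
          x * y = e → y * x = e) ∧
        (∀ b c d : M, b * c = b → b * d * c = c → b * d * d = d →
          b * d * (b * d) = b * d))] := by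
  tfae_have 1 → 3 := fun h => tame_iff.1 (tame_of_directlyFinite K h)
  tfae_have 3 → 2 := fun h n A B hAB => stablyFinite_charP (tame_iff.2 h) hM A B hAB
  tfae_have 2 → 1 := by
    intro h a b hab
    have h1 := h 1 (Matrix.diagonal fun _ => a) (Matrix.diagonal fun _ => b) (by
      rw [Matrix.diagonal_mul_diagonal, hab, Matrix.diagonal_one])
    rw [Matrix.diagonal_mul_diagonal, ← Matrix.diagonal_one] at h1
    exact congrFun (Matrix.diagonal_injective h1) 0
  tfae_finish

end Pool.Agent.Results.MP_a22eb7_al.CharP
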