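import Pool.Agent.H.MP_a22eb7_al.CharZero

set_option autoImplicit false

namespace Pool.Agent.Results.MP_a22eb7_al.CharZero

open MonoidAlgebra Pool.Agent.H.MP_a22eb7_al

/-- For every monoid `M` and every field `K` of characteristic zero, the monoid algebra `K[M]` is
stably finite if and only if it is directly finite, if and only if `M` satisfies an explicit
combinatorial condition not involving `K`. -/
theorem result (M : Type*) [Monoid M] (K : Type*) [Field K] [CharZero K] :
    List.TFAE [
      (∀ a b : MonoidAlgebra K M, a * b = 1 → b * a = 1),
      (∀ (n : ℕ) (A B : Matrix (Fin n) (Fin n) (MonoidAlgebra K M)), A * B = 1 → B * A = 1),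
      ((∀ e x y : M, e * e = e → e * x = x → x * e = x → e * y = y → y * e = y →
          x * y = e → y * x = e) ∧
        (∀ b c d : M, b * c = b → b * d * c = c → b * d * d = d →
          b * d * (b * d) = b * d))] := by
  tfae_have 1 → 3 := fun h => tame_iff.1 (tame_of_directlyFinite K h)
  tfae_have 3 → 2 := fun h n A B hAB => stablyFinite_charZero (tame_iff.2 h) A B hAB
  tfae_have 2 → 1 := by
    intro h a b hab
    have h1 := h 1 (Matrix.diagonal fun _ => a) (Matrix.diagonal fun _ => b) (by
      rw [Matrix.diagonal_mul_diagonal, hab, Matrix.diagonal_one])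
    rw [Matrix.diagonal_mul_diagonal, ← Matrix.diagonal_one] at h1
    exact congrFun (Matrix.diagonal_injective h1) 0
  tfae_finish

end Pool.Agent.Results.MP_a22eb7_al.CharZero
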