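import Pool.Agent.H.MP_a22eb7_al.helper44.Final

set_option autoImplicit false

namespace Pool.Agent.Results.MP_a22eb7_al.ReductionToSubgroups

open MonoidAlgebra Pool.Agent.H.MP_a22eb7_al

universe u w

/-- Reduction of Q1 to subgroups. Let `M` be an elementary monoid (`Lay.Elementary`) and `K` a
nonzero ring. Then the following are equivalent: (1) `K[M]` is stably finite; (2) `K[M]` is directly
finite, and for each subgroup `G` of `M` the ring `K[G]`, if directly finite, is stably finite;
(3) `M` satisfies an explicit combinatorial condition, and `K[G]` is stably finite for each subgroup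
`G` of `M`. If `K` is a field, only the subgroups `G` which are not sofic have to be considered in
(2) and (3): if all subgroups of `M` are sofic, then `K[M]` is stably finite if and only if it is
directly finite, for every field `K`. -/
theorem result (M : Type u) [Monoid M] (hM : Lay.Elementary M)
    (K : Type w) [Ring K] [Nontrivial K] :
    List.TFAE [
      (∀ (n : ℕ) (A B : Matrix (Fin n) (Fin n) (MonoidAlgebra K M)), A * B = 1 → B * A = 1),
      ((∀ a b : MonoidAlgebra K M, a * b = 1 → b * a = 1) ∧
        ∀ (G : Type u) [Group G] (f : G →ₙ* M), Function.Injective f →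
          (IsField K → ¬ IsSofic G) →
          (∀ a b : MonoidAlgebra K G, a * b = 1 → b * a = 1) →
          ∀ (n : ℕ) (A B : Matrix (Fin n) (Fin n) (MonoidAlgebra K G)), A * B = 1 → B * A = 1),
      (((∀ e x y : M, e * e = e → e * x = x → x * e = x → e * y = y → y * e = y →
          x * y = e → y * x = e) ∧
        (∀ b c d : M, b * c = b → b * d * c = c → b * d * d = d →
          b * d * (b * d) = b * d)) ∧
        ∀ (G : Type u) [Group G] (f : G →ₙ* M), Function.Injective f →
          (IsField K → ¬ IsSofic G) →
          ∀ (n : ℕ) (A B : Matrix (Fin n) (Fin n) (MonoidAlgebra K G)), A * B = 1 → B * A = 1)] := by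
  classical
  tfae_have 1 → 2 := by
    intro h
    have h' : Lay.SF (MonoidAlgebra K M) := h
    exact ⟨Lay.df_of_sf h', fun G _ f hf _ _ => Lay.sf_subgroup h' f hf⟩
  tfae_have 2 → 3 := fun h => ⟨tame_iff.1 (tame_of_directlyFinite K h.1), fun G _ f hf hG =>
    h.2 G f hf hG fun a b hab => Lay.df_subgroup h.1 f hf a b hab⟩
  tfae_have 3 → 1 := by
    rintro ⟨h1, h2⟩
    refine (hM.elem.sf_iff (K := K)).2 ⟨tame_iff.2 h1, fun G _ f hf => ?_⟩
    by_cases hK : IsField K ∧ IsSofic G
    · obtain ⟨hK1, hK2⟩ := hK
      let _ : Field K := hK1.toField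
      exact fun n A B hAB => hK2.stablyFinite K n A B hAB
    · exact h2 G f hf fun hK1 hK2 => hK ⟨hK1, hK2⟩
  tfae_finish

end Pool.Agent.Results.MP_a22eb7_al.ReductionToSubgroups
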